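import Pool.Agent.helper57.MS.Spec2

/-! Project ms (MP_b48e27_co), row PUL: ultraproducts and normalised sums. -/

set_option autoImplicit false

open Finset

namespace Pool.Agent.helper57.MS

open Pool.Agent.RRank Pool.Agent.helper26.IM

theorem PUL_sg (𝓅 : Ultrafilter ℕ) (K : ℕ → Type) [∀ n, Field (K n)] (d l : ℕ)
    (A : Finset (Fin d)) (σ : Fin d → Equiv.Perm (Fin l)) :
    sg (UF 𝓅 K) A σ = UF.mk 𝓅 (fun n => sg (K n) A σ) := by
  have h1 : (fun n => sg (K n) A σ) =
      ∏ α ∈ A, (((Equiv.Perm.sign (σ α) : ℤ) : (n : ℕ) → K n)) := by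
    funext n
    rw [Finset.prod_apply]
    rfl
  rw [h1, map_prod]
  unfold sg
  refine Finset.prod_congr rfl fun α _ => ?_
  rw [map_intCast]

theorem PUL_nw (𝓅 : Ultrafilter ℕ) (K : ℕ → Type) [∀ n, Field (K n)] (d l : ℕ)
    (S A : Finset (Fin d)) (s₀ : Fin d) (σ : Fin d → Equiv.Perm (Fin l)) :
    nw (UF 𝓅 K) S A s₀ σ = UF.mk 𝓅 (fun n => nw (K n) S A s₀ σ) := by
  classical
  by_cases h : σ s₀ = 1 ∧ ∀ γ, γ ∉ S → σ γ = 1
  · have h1 : nw (UF 𝓅 K) S A s₀ σ = sg (UF 𝓅 K) A σ := by
      unfold nw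
      exact if_pos h
    have h2 : (fun n => nw (K n) S A s₀ σ) = fun n => sg (K n) A σ := by
      funext n
      unfold nw
      exact if_pos h
    rw [h1, h2, PUL_sg]
  · have h1 : nw (UF 𝓅 K) S A s₀ σ = 0 := by
      unfold nw
      exact if_neg h
    have h2 : (fun n => nw (K n) S A s₀ σ) = (0 : (n : ℕ) → K n) := by
      funext n
      unfold nw
      exact if_neg h
    rw [h1, h2, map_zero]

theorem PUL_res (K : ℕ → Type) (d : ℕ) (Q : ℕ → Fin d → Type)
    (T : (n : ℕ) → ((α : Fin d) → Q n α) → K n) (S : Finset (Fin d))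
    (q x : (α : Fin d) → (n : ℕ) → Q n α) (n : ℕ) :
    T n (fun α => (if α ∈ S then x α else q α) n) =
      res S (fun α => q α n) (T n) (fun α => x α n) := by
  unfold res
  apply congrArg
  funext α
  by_cases h : α ∈ S
  · rw [if_pos h, if_pos h]
  · rw [if_neg h, if_neg h]

theorem PUL : PUL_stmt := by
  intro 𝓅 K _ d l Q T S A s₀ hA q
  funext x
  have h1 : HC l (nw (UF 𝓅 K) S A s₀) (res S q (fun x : (α : Fin d) → (n : ℕ) → Q n α =>
      UF.mk 𝓅 (fun n => T n (fun α => x α n)))) x =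
      UF.mk 𝓅 (fun n => HC l (nw (K n) S A s₀) (res S (fun α => q α n) (T n))
        (fun w => x w n)) := by
    have h2 : (fun n => HC l (nw (K n) S A s₀) (res S (fun α => q α n) (T n))
        (fun w => x w n)) =
        ∑ σ : Fin d → Equiv.Perm (Fin l), (fun n => nw (K n) S A s₀ σ) *
          ∏ i : Fin l, (fun n => res S (fun α => q α n) (T n) (fun α => x (α, σ α i) n)) := by
      funext n
      unfold HC
      rw [Finset.sum_apply, Finset.sum_apply]
      refine Finset.sum_congr rfl fun σ _ => ?_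
      rw [Pi.smul_apply, Finset.prod_apply, Pi.mul_apply, Finset.prod_apply, smul_eq_mul]
      rfl
    rw [h2, map_sum]
    unfold HC
    rw [Finset.sum_apply]
    refine Finset.sum_congr rfl fun σ _ => ?_
    rw [Pi.smul_apply, Finset.prod_apply, map_mul, map_prod, smul_eq_mul, PUL_nw]
    refine congrArg _ (Finset.prod_congr rfl fun i _ => ?_)
    show UF.mk 𝓅 (fun n => T n (fun α => (if α ∈ S then x (α, σ α i) else q α) n)) = _
    apply congrArg
    funext n
    exact PUL_res K d Q T S q (fun α => x (α, σ α i)) n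
  rw [h1]
  have h3 : (fun n => HC l (nw (K n) S A s₀) (res S (fun α => q α n) (T n))
      (fun w => x w n)) = (0 : (n : ℕ) → K n) := by
    funext n
    rw [hA n]
    rfl
  rw [h3, map_zero]
  rfl

end Pool.Agent.helper57.MS
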